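import Mathlib
import Pool.Agent.Lib_helper10.Erdos460.Count
import Pool.Prelude.Def_F_8adaa765

/-!
# MP_8775f9_nt: most elements of a class are near the mean of the class
-/

set_option autoImplicit false

namespace Pool.Agent.GSO

open Finset N435e839e Pool.Agent.Lib_helper10.Erdos460

/-- the deviation of `S(n)` from the mean of its class -/
noncomputable def dv (y N n : ℕ) : ℝ :=
  totalSum false n - (∑ a ∈ (selected false n).filter (fun a => a ≤ y), (1 : ℝ) / a) -
    Real.exp (-Real.eulerMascheroniConstant) * Real.log (Real.log N / Real.log y)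

/-- the class variance theorem with the constant `C` -/
def CV (C : ℝ) : Prop :=
  ∀ (y N r : ℕ), 2 ≤ y → Real.exp (C * y) ≤ N →
    ∑ n ∈ (Icc 1 N).filter (fun n => n ≡ r [MOD primorial y]), dv y N n ^ 2 ≤
      C * ((N : ℝ) / primorial y)

theorem four_le_exp_two : (4 : ℝ) ≤ Real.exp 2 := by
  have h1 : (2.7182818283 : ℝ) < Real.exp 1 := Real.exp_one_gt_d9
  have h2 : Real.exp 2 = Real.exp 1 * Real.exp 1 := by rw [← Real.exp_add]; norm_num
  rw [h2]; nlinarith

theorem four_pow_le (y : ℕ) : (4 : ℝ) ^ y ≤ Real.exp (2 * y) := by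
  calc (4 : ℝ) ^ y ≤ (Real.exp 2) ^ y := pow_le_pow_left₀ (by norm_num) four_le_exp_two y
    _ = Real.exp (2 * y) := by rw [← Real.exp_nat_mul]; congr 1; ring

theorem primorial_le' (y : ℕ) : (primorial y : ℝ) ≤ 4 ^ y := by
  have h := primorial_le_four_pow y
  exact_mod_cast h

theorem good_count (C : ℝ) (hC : 8 ≤ C) (h : CV C) (y N r : ℕ) (hy : 2 ≤ y)
    (hN : Real.exp (C * y) ≤ N) :
    (N : ℝ) / (2 * 4 ^ y) ≤ ((((Icc 1 N).filter (fun n => Nat.sqrt N < n ∧ y < n ∧
      n ≡ r [MOD primorial y] ∧ |dv y N n| ≤ 2 * C)).card : ℕ) : ℝ) := by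
  classical
  set q := primorial y with hq
  have hq1 : 0 < q := primorial_pos y
  have hqR : (0 : ℝ) < q := by exact_mod_cast hq1
  have hq4 : (q : ℝ) ≤ 4 ^ y := primorial_le' y
  have hyR : (2 : ℝ) ≤ y := by exact_mod_cast hy
  have hN8 : Real.exp (8 * y) ≤ N := by
    refine le_trans (Real.exp_le_exp.2 ?_) hN
    nlinarith
  have hNpos : (0 : ℝ) < N := lt_of_lt_of_le (Real.exp_pos _) hN8
  -- `16 · 4^y ≤ N`, `(y+1)^2 ≤ N`, `64 ≤ N`
  have e6 : 13 ≤ Real.exp (6 * y) := by
    have := Real.add_one_le_exp (6 * (y : ℝ))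
    linarith
  have hsplit : Real.exp (8 * y) = Real.exp (2 * y) * Real.exp (6 * y) := by
    rw [← Real.exp_add]; congr 1; ring
  have hqN : 13 * (q : ℝ) ≤ N := by
    refine le_trans ?_ hN8
    rw [hsplit]
    have h1 := four_pow_le y
    have h2 : (0 : ℝ) ≤ Real.exp (2 * y) := (Real.exp_pos _).le
    nlinarith
  have hyN : ((y : ℝ) + 1) ^ 2 ≤ N := by
    refine le_trans ?_ hN8
    have h1 : (y : ℝ) + 1 ≤ Real.exp y := Real.add_one_le_exp _
    calc ((y : ℝ) + 1) ^ 2 ≤ (Real.exp y) ^ 2 := pow_le_pow_left₀ (by positivity) h1 2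
      _ = Real.exp (2 * y) := by rw [← Real.exp_nat_mul]; norm_num
      _ ≤ Real.exp (8 * y) := Real.exp_le_exp.2 (by linarith)
  set M := Nat.sqrt N with hM
  have hyM : y ≤ M := by
    rw [hM, Nat.le_sqrt]
    have h1 : ((y * y : ℕ) : ℝ) ≤ N := by
      push_cast
      nlinarith
    exact_mod_cast h1
  have hMM : (M : ℝ) * M ≤ N := by
    have := Nat.sqrt_le N
    exact_mod_cast this
  have hN64 : (169 : ℝ) ≤ N := by
    have h4 : (4 : ℝ) ^ y ≤ Real.exp (2 * y) := four_pow_le y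
    have h5 : (16 : ℝ) ≤ 4 ^ y := by
      calc (16 : ℝ) = 4 ^ 2 := by norm_num
        _ ≤ 4 ^ y := pow_le_pow_right₀ (by norm_num) hy
    refine le_trans ?_ hN8
    rw [hsplit]
    nlinarith
  have hM13 : 13 * (M : ℝ) ≤ N := by
    by_contra hcon
    push Not at hcon
    have hM0 : (0 : ℝ) ≤ M := Nat.cast_nonneg _
    nlinarith
  have hMN : M ≤ N := Nat.sqrt_le_self N
  -- the class
  set K := (Ioc M N).filter (fun n => n ≡ r [MOD q]) with hK
  set Bad := ((Icc 1 N).filter (fun n => n ≡ r [MOD q])).filter (fun n => 2 * C < |dv y N n|) with hBad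
  set G := (Icc 1 N).filter (fun n => M < n ∧ y < n ∧ n ≡ r [MOD q] ∧ |dv y N n| ≤ 2 * C) with hG
  have hcard : (K.card : ℝ) ≤ G.card + Bad.card := by
    have hsub : K ⊆ G ∪ Bad := by
      intro n hn
      rw [hK, mem_filter, mem_Ioc] at hn
      rw [mem_union]
      by_cases hb : 2 * C < |dv y N n|
      · right
        rw [hBad, mem_filter, mem_filter, mem_Icc]
        exact ⟨⟨⟨by omega, hn.1.2⟩, hn.2⟩, hb⟩
      · left
        rw [hG, mem_filter, mem_Icc]
        exact ⟨⟨by omega, hn.1.2⟩, hn.1.1, by omega, hn.2, not_lt.1 hb⟩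
    have := (card_le_card hsub).trans (card_union_le _ _)
    exact_mod_cast this
  have hKc : ((N : ℝ) - M) / q - 1 ≤ K.card := by
    have h1 := count_modEq M (N - M) q r hq1
    have h2 : M + (N - M) = N := by omega
    rw [h2] at h1
    have h3 := (abs_le.1 h1).1
    have h4 : ((N - M : ℕ) : ℝ) = (N : ℝ) - M := by
      rw [Nat.cast_sub hMN]
    rw [h4] at h3
    linarith
  have hBc : (Bad.card : ℝ) ≤ (N : ℝ) / q / 32 := by
    have h1 := h y N r hy hN
    have h2 : (Bad.card : ℝ) * (2 * C) ^ 2 ≤ C * ((N : ℝ) / q) := by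
      refine le_trans ?_ h1
      calc (Bad.card : ℝ) * (2 * C) ^ 2 = ∑ n ∈ Bad, (2 * C) ^ 2 := by
            rw [sum_const, nsmul_eq_mul]
        _ ≤ ∑ n ∈ Bad, dv y N n ^ 2 := by
            refine sum_le_sum fun n hn => ?_
            rw [hBad, mem_filter] at hn
            rw [← sq_abs (dv y N n)]
            exact pow_le_pow_left₀ (by linarith) hn.2.le 2
        _ ≤ _ := sum_le_sum_of_subset_of_nonneg (filter_subset _ _) fun n _ _ => sq_nonneg _
    have h3 : (0 : ℝ) ≤ (N : ℝ) / q := by positivity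
    have h4 : (0 : ℝ) ≤ (Bad.card : ℝ) := Nat.cast_nonneg _
    have h5 : (Bad.card : ℝ) * (4 * C) ≤ (N : ℝ) / q := by
      have hC0 : 0 < C := by linarith
      have h6 : C * ((Bad.card : ℝ) * (4 * C)) ≤ C * ((N : ℝ) / q) := by
        calc C * ((Bad.card : ℝ) * (4 * C)) = (Bad.card : ℝ) * (2 * C) ^ 2 := by ring
          _ ≤ _ := h2
      exact le_of_mul_le_mul_left h6 hC0
    nlinarith
  have hfin : (N : ℝ) / q / 2 ≤ G.card := by
    have h1 : (M : ℝ) / q ≤ (N : ℝ) / q / 13 := by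
      rw [div_div, div_le_div_iff₀ hqR (by positivity)]
      nlinarith
    have h2 : (1 : ℝ) ≤ (N : ℝ) / q / 13 := by
      rw [div_div, le_div_iff₀ (by positivity)]
      linarith
    have h3 : ((N : ℝ) - M) / q = (N : ℝ) / q - (M : ℝ) / q := by rw [sub_div]
    rw [h3] at hKc
    have h0 : (0 : ℝ) ≤ (N : ℝ) / q := by positivity
    linarith
  refine le_trans ?_ hfin
  rw [div_div, mul_comm (q : ℝ) 2]
  exact div_le_div_of_nonneg_left hNpos.le (by positivity) (by linarith)

end Pool.Agent.GSO
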