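import Mathlib
import Pool.Agent.GSO.Cnt

/-!
# MP_8775f9_nt: the choice of `y`
-/

set_option autoImplicit false

namespace Pool.Agent.GSO

open Finset Filter

theorem choice (C δ : ℝ) (hC : 1 ≤ C) (hδ : 0 < δ) (hδ1 : δ ≤ 1) :
    ∃ K : ℝ, 0 ≤ K ∧ ∀ᶠ N : ℕ in atTop, ∀ t : ℝ, 0 ≤ t → t ≤ 1 →
      ∃ y : ℕ, 2 ≤ y ∧ Real.exp (C * y) ≤ N ∧ 2 * (4 : ℝ) ^ y ≤ (N : ℝ) ^ δ ∧
        |Real.log (Real.log y) - t * Real.log (Real.log (Real.log N))| ≤ K := by
  set c : ℝ := min (δ / 4) (1 / C) with hc
  have hC0 : 0 < C := by linarith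
  have hc0 : 0 < c := lt_min (by positivity) (by positivity)
  have hcδ : c ≤ δ / 4 := min_le_left _ _
  have hcC : c ≤ 1 / C := min_le_right _ _
  have hc4 : c ≤ 1 / 4 := by linarith
  set D : ℝ := Real.log (2 / c) with hD
  have hl2 : (0.69 : ℝ) < Real.log 2 := by have := Real.log_two_gt_d9; linarith
  have hD0 : 0 < D := by
    rw [hD]
    apply Real.log_pos
    rw [lt_div_iff₀ hc0]
    linarith
  set m : ℝ := min (1 / 2) (Real.log 2 / (2 * D)) with hm
  have hm0 : 0 < m := lt_min (by norm_num) (by positivity)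
  have hm1 : m ≤ 1 / 2 := min_le_left _ _
  have hm2 : m ≤ Real.log 2 / (2 * D) := min_le_right _ _
  refine ⟨-Real.log m, ?_, ?_⟩
  · have := Real.log_nonpos hm0.le (by linarith)
    linarith
  have hlogN : Tendsto (fun N : ℕ => Real.log (N : ℝ)) atTop atTop :=
    Real.tendsto_log_atTop.comp tendsto_natCast_atTop_atTop
  filter_upwards [hlogN.eventually_ge_atTop (Real.exp 1), hlogN.eventually_ge_atTop (2 * C),
    hlogN.eventually_ge_atTop (10 / δ), eventually_ge_atTop 1] with N h1 h2 h3 h4
  intro t ht0 ht1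
  have hNpos : (0 : ℝ) < N := by exact_mod_cast h4
  set L := Real.log (N : ℝ) with hL
  have hL0 : 0 < L := (Real.exp_pos 1).trans_le h1
  have hlogL : 1 ≤ Real.log L := (Real.le_log_iff_exp_le hL0).2 h1
  have hNexp : (N : ℝ) = Real.exp L := (Real.exp_log hNpos).symm
  set E := Real.log L ^ t with hE
  have hE1 : 1 ≤ E := Real.one_le_rpow hlogL ht0
  have hE2 : E ≤ Real.log L := by
    calc E ≤ Real.log L ^ (1 : ℝ) := Real.rpow_le_rpow_of_exponent_le hlogL ht1
      _ = Real.log L := Real.rpow_one _
  have hE0 : 0 < E := by linarith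
  have hexpE : Real.exp E ≤ L := by
    calc Real.exp E ≤ Real.exp (Real.log L) := Real.exp_le_exp.2 hE2
      _ = L := Real.exp_log hL0
  set a := c * Real.exp E with ha
  have ha0 : 0 < a := by positivity
  have haL : a ≤ c * L := mul_le_mul_of_nonneg_left hexpE hc0.le
  set y : ℕ := max 2 ⌊a⌋₊ with hy
  have hy2 : 2 ≤ y := le_max_left _ _
  have hyR : (2 : ℝ) ≤ y := by exact_mod_cast hy2
  have hyup : (y : ℝ) ≤ max 2 a := by
    rw [hy, Nat.cast_max]
    exact max_le_max (by norm_num) (Nat.floor_le ha0.le)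
  have hylow : a / 2 ≤ y := by
    rcases le_total a 2 with h | h
    · linarith
    · have h5 : (⌊a⌋₊ : ℝ) ≤ y := by exact_mod_cast le_max_right 2 ⌊a⌋₊
      have h6 := Nat.lt_floor_add_one a
      linarith
  refine ⟨y, hy2, ?_, ?_, ?_⟩
  · rw [hNexp, Real.exp_le_exp]
    rcases le_max_iff.1 hyup with h | h
    · nlinarith
    · calc C * y ≤ C * (c * L) := mul_le_mul_of_nonneg_left (h.trans haL) hC0.le
        _ = (C * c) * L := by ring
        _ ≤ 1 * L := by
            refine mul_le_mul_of_nonneg_right ?_ hL0.le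
            calc C * c ≤ C * (1 / C) := mul_le_mul_of_nonneg_left hcC hC0.le
              _ = 1 := by field_simp
        _ = L := one_mul L
  · have hN' : (N : ℝ) ^ δ = Real.exp (δ * L) := by
      rw [Real.rpow_def_of_pos hNpos, mul_comm]
    rw [hN']
    have h5 : (2 : ℝ) ≤ Real.exp 1 := by
      have := Real.add_one_le_exp (1 : ℝ)
      linarith
    have h6 : 2 * (4 : ℝ) ^ y ≤ Real.exp 1 * Real.exp (2 * y) :=
      mul_le_mul h5 (four_pow_le y) (by positivity) (Real.exp_pos 1).le
    refine h6.trans ?_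
    rw [← Real.exp_add, Real.exp_le_exp]
    have h7 : 10 ≤ δ * L := by
      rw [div_le_iff₀ hδ] at h3
      linarith
    rcases le_max_iff.1 hyup with h | h
    · linarith
    · have h8 : a ≤ δ / 4 * L := haL.trans (mul_le_mul_of_nonneg_right hcδ hL0.le)
      linarith
  · have hlogy0 : 0 < Real.log y := Real.log_pos (by linarith)
    have hup : Real.log y ≤ E := by
      rw [Real.log_le_iff_le_exp (by linarith)]
      refine hyup.trans (max_le ?_ ?_)
      · have := Real.add_one_le_exp E
        linarith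
      · rw [ha]
        have := Real.exp_pos E
        nlinarith
    have hlow : m * E ≤ Real.log y := by
      rcases le_total (2 * D) E with h | h
      · have h5 : Real.log (a / 2) ≤ Real.log y := Real.log_le_log (by positivity) hylow
        have h6 : Real.log (a / 2) = E - D := by
          have h7 : a / 2 = Real.exp E / (2 / c) := by
            rw [ha]; field_simp
          rw [h7, Real.log_div (Real.exp_pos E).ne' (by positivity), Real.log_exp]
        have h8 : m * E ≤ 1 / 2 * E := mul_le_mul_of_nonneg_right hm1 hE0.le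
        linarith
      · have h5 : Real.log 2 ≤ Real.log y := Real.log_le_log (by norm_num) hyR
        have h6 : m * E ≤ Real.log 2 / (2 * D) * (2 * D) :=
          mul_le_mul hm2 h hE0.le (by positivity)
        have h7 : Real.log 2 / (2 * D) * (2 * D) = Real.log 2 := by
          field_simp
        linarith
    have hlE : Real.log E = t * Real.log (Real.log L) := by
      rw [hE, Real.log_rpow (by linarith)]
    have h5 : Real.log (Real.log y) ≤ Real.log E := Real.log_le_log hlogy0 hup
    have h6 : Real.log m + Real.log E ≤ Real.log (Real.log y) := by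
      rw [← Real.log_mul hm0.ne' hE0.ne']
      exact Real.log_le_log (by positivity) hlow
    have h7 : Real.log m ≤ 0 := Real.log_nonpos hm0.le (by linarith)
    rw [← hlE, abs_le]
    constructor <;> linarith

end Pool.Agent.GSO
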