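import Mathlib
import Pool.Agent.Lib_helper10.Erdos460.Greedy

/-!
# MP_8775f9_nt: the selected `a ≤ y` for the classes `n ≡ 1` and `n ≡ 0` modulo the primorial of `y`
-/

set_option autoImplicit false

namespace Pool.Agent.GSO

open Finset N435e839e Pool.Agent.Lib_helper10.Erdos460

/-- the class of `1`: the terms `≤ y` are `1` and `2` -/
theorem filter_one {y n : ℕ} (hy : 2 ≤ y) (hyn : y < n) (hn : n ≡ 1 [MOD primorial y]) :
    (selected false n).filter (fun a => a ≤ y) = {1, 2} := by
  have h1s : 1 ∈ selected false n := (mem_selected_iff n 1).2 ⟨le_rfl, by omega, Or.inl rfl⟩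
  ext a
  simp only [mem_filter, mem_insert, mem_singleton]
  constructor
  · rintro ⟨ha, hay⟩
    by_contra hcon
    push Not at hcon
    have ha1 := sel_pos ha
    have han := sel_lt ha
    have ha3 : 3 ≤ a := by omega
    obtain ⟨p, hp, hpa⟩ := Nat.exists_prime_and_dvd (n := a - 1) (by omega)
    have hpy : p ≤ y := (Nat.le_of_dvd (by omega) hpa).trans (by omega)
    have hpq : p ∣ primorial y := by
      rw [hp.dvd_primorial_iff]
      exact hpy
    have h2 : n ≡ 1 [MOD p] := hn.of_dvd hpq
    have h3 : p ∣ n - 1 := (Nat.modEq_iff_dvd' (by omega)).1 h2.symm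
    have h4 : p ∣ n - a := by
      have h5 : n - a = (n - 1) - (a - 1) := by omega
      rw [h5]
      exact Nat.dvd_sub h3 hpa
    have h6 := sel_coprime ha h1s (by omega)
    exact hp.one_lt.ne' (Nat.dvd_one.1 (h6 ▸ Nat.dvd_gcd h4 h3))
  · rintro (rfl | rfl)
    · exact ⟨h1s, by omega⟩
    · refine ⟨(mem_selected_iff n 2).2 ⟨by omega, by omega, Or.inr fun b hb hb2 => ?_⟩, hy⟩
      have hb1 : b = 1 := by have := sel_pos hb; omega
      subst hb1
      have h5 : n - 1 = (n - 2) + 1 := by omega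
      rw [h5]
      exact Nat.coprime_self_add_right.2 (Nat.coprime_one_right _)

/-- the class of `0`: the terms `≤ y` are `1` and the primes -/
theorem filter_zero {y n : ℕ} (hy : 1 ≤ y) (hyn : y < n) (hn : n ≡ 0 [MOD primorial y]) :
    (selected false n).filter (fun a => a ≤ y) = insert 1 (Nat.primesLE y) := by
  have hdvd : ∀ p, p.Prime → p ≤ y → p ∣ n := by
    intro p hp hpy
    have hpq : p ∣ primorial y := by
      rw [hp.dvd_primorial_iff]
      exact hpy
    exact (Nat.modEq_zero_iff_dvd.1 (hn.of_dvd hpq))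
  have hcop : ∀ a b, b < a → a ≤ y → (Nat.Coprime (n - a) (n - b) ↔ Nat.Coprime a b) := by
    intro a b hba hay
    constructor
    · intro h
      rw [Nat.coprime_iff_gcd_eq_one]
      by_contra hg
      obtain ⟨p, hp, hpg⟩ := Nat.exists_prime_and_dvd hg
      have hpa := hpg.trans (Nat.gcd_dvd_left a b)
      have hpb := hpg.trans (Nat.gcd_dvd_right a b)
      have hpy : p ≤ y := (Nat.le_of_dvd (by omega) hpa).trans hay
      have hpn := hdvd p hp hpy
      exact hp.one_lt.ne' (Nat.dvd_one.1 (h ▸ Nat.dvd_gcd (Nat.dvd_sub hpn hpa) (Nat.dvd_sub hpn hpb)))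
    · intro h
      rw [Nat.coprime_iff_gcd_eq_one]
      by_contra hg
      obtain ⟨p, hp, hpg⟩ := Nat.exists_prime_and_dvd hg
      have hpa := hpg.trans (Nat.gcd_dvd_left _ _)
      have hpb := hpg.trans (Nat.gcd_dvd_right _ _)
      have hpab : p ∣ a - b := by
        have h5 : a - b = (n - b) - (n - a) := by omega
        rw [h5]
        exact Nat.dvd_sub hpb hpa
      have hpy : p ≤ y := (Nat.le_of_dvd (by omega) hpab).trans (by omega)
      have hpn := hdvd p hp hpy
      have h1 : p ∣ a := by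
        have h6 : a = n - (n - a) := by omega
        rw [h6]
        exact Nat.dvd_sub hpn hpa
      have h2 : p ∣ b := by
        have h6 : b = n - (n - b) := by omega
        rw [h6]
        exact Nat.dvd_sub hpn hpb
      exact hp.one_lt.ne' (Nat.dvd_one.1 (h ▸ Nat.dvd_gcd h1 h2))
  have hprime : ∀ p, p.Prime → p ≤ y → p ∈ selected false n := by
    intro p hp hpy
    refine (mem_selected_iff n p).2 ⟨hp.one_le, by omega, Or.inr fun b hb hbp => ?_⟩
    rw [hcop p b hbp hpy]
    exact Nat.coprime_of_lt_prime (by have := sel_pos hb; omega) hbp hp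
  ext a
  simp only [mem_filter, mem_insert, Nat.mem_primesLE]
  constructor
  · rintro ⟨ha, hay⟩
    by_cases ha1 : a = 1
    · exact Or.inl ha1
    · refine Or.inr ⟨hay, ?_⟩
      by_contra hnp
      have hpos := sel_pos ha
      have hmp : (Nat.minFac a).Prime := Nat.minFac_prime ha1
      have hml : Nat.minFac a < a := by
        rcases (Nat.minFac_le hpos).lt_or_eq with h | h
        · exact h
        · exact absurd (h ▸ hmp) hnp
      have h1 := sel_coprime ha (hprime _ hmp (by omega)) (by omega)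
      rw [hcop a _ hml hay] at h1
      have h2 : Nat.minFac a ∣ 1 := h1 ▸ Nat.dvd_gcd (Nat.minFac_dvd a) dvd_rfl
      exact hmp.one_lt.ne' (Nat.dvd_one.1 h2)
  · rintro (rfl | ⟨hay, hp⟩)
    · exact ⟨(mem_selected_iff n 1).2 ⟨le_rfl, by omega, Or.inl rfl⟩, hy⟩
    · exact ⟨hprime a hp hay, hay⟩

theorem sum_one {y n : ℕ} (hy : 2 ≤ y) (hyn : y < n) (hn : n ≡ 1 [MOD primorial y]) :
    ∑ a ∈ (selected false n).filter (fun a => a ≤ y), (1 : ℝ) / a = 3 / 2 := by
  rw [filter_one hy hyn hn, sum_pair (by norm_num)]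
  norm_num

theorem sum_zero {y n : ℕ} (hy : 1 ≤ y) (hyn : y < n) (hn : n ≡ 0 [MOD primorial y]) :
    ∑ a ∈ (selected false n).filter (fun a => a ≤ y), (1 : ℝ) / a =
      1 + ∑ p ∈ Nat.primesLE y, (1 : ℝ) / p := by
  rw [filter_zero hy hyn hn, sum_insert]
  · norm_num
  · rw [Nat.mem_primesLE]
    rintro ⟨-, h⟩
    exact Nat.not_prime_one h

end Pool.Agent.GSO
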