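import Mathlib
import Pool.Agent.GSO.Sel
import Pool.Agent.GSO.Cho
import Pool.Agent.Lib_helper10.Erdos460.Mertens2
import Pool.Agent.GSU.SMA

/-!
# MP_8775f9_nt: the oscillation of `S(n)` and its mean square
-/

set_option autoImplicit false

namespace Pool.Agent.GSO

open Finset Filter N435e839e Pool.Agent.Lib_helper10.Erdos460

/-- `e^(-γ)` -/
noncomputable def gm : ℝ := Real.exp (-Real.eulerMascheroniConstant)

theorem gm_pos : 0 < gm := Real.exp_pos _

theorem gm_lt : gm < 1 := by
  unfold gm
  rw [Real.exp_lt_one_iff]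
  have := Real.one_half_lt_eulerMascheroniConstant
  linarith

theorem osc (C : ℝ) (hC : 8 ≤ C) (h : CV C) (δ : ℝ) (hδ : 0 < δ) :
    ∃ B : ℝ, ∀ᶠ N : ℕ in atTop, ∀ θ : ℝ, -gm ≤ θ → θ ≤ 1 - gm →
      (N : ℝ) ^ (1 - δ) ≤ ((((Ioc (Nat.sqrt N) N).filter (fun n =>
        |totalSum false n - gm * Real.log (Real.log n) -
          θ * Real.log (Real.log (Real.log n))| ≤ B)).card : ℕ) : ℝ) := by
  classical
  set δ' : ℝ := min δ 1 with hδ'
  have hδ'0 : 0 < δ' := lt_min hδ one_pos
  obtain ⟨K, hK0, hK⟩ := choice C δ' (by linarith) hδ'0 (min_le_right _ _)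
  obtain ⟨M0, C1, hC1, hM⟩ := mertens_second
  have hg0 := gm_pos
  have hg1 := gm_lt
  refine ⟨2 * C + K + 2 * C1 + |M0| + 5, ?_⟩
  have hlogN : Tendsto (fun N : ℕ => Real.log (N : ℝ)) atTop atTop :=
    Real.tendsto_log_atTop.comp tendsto_natCast_atTop_atTop
  have hloglogN : Tendsto (fun N : ℕ => Real.log (Real.log (N : ℝ))) atTop atTop :=
    Real.tendsto_log_atTop.comp hlogN
  have hl2 : (0.69 : ℝ) < Real.log 2 := by have := Real.log_two_gt_d9; linarith
  have hl2' : Real.log 2 < 0.7 := by have := Real.log_two_lt_d9; linarith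
  filter_upwards [hK, hloglogN.eventually_ge_atTop 4, eventually_ge_atTop 3] with N hN hLL hN3
  intro θ hθ1 hθ2
  have hN1 : (1 : ℝ) ≤ N := by exact_mod_cast (by omega : 1 ≤ N)
  have hNpos : (0 : ℝ) < N := by linarith
  set L := Real.log (N : ℝ) with hL
  have hL0 : 0 < L := Real.log_pos (by exact_mod_cast (by omega : 1 < N))
  -- comparison of `n` and `N`
  have hcmp : ∀ n : ℕ, Nat.sqrt N < n → n ≤ N →
      |Real.log (Real.log n) - Real.log L| ≤ 1 ∧
        |Real.log (Real.log (Real.log n)) - Real.log (Real.log L)| ≤ 1 := by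
    intro n hn1 hn2
    have hn0 : (0 : ℝ) < n := by exact_mod_cast (by omega : 0 < n)
    have hnn : (N : ℝ) ≤ (n : ℝ) * n := by
      have := Nat.sqrt_lt.1 hn1
      exact_mod_cast this.le
    have h1 : L ≤ 2 * Real.log n := by
      have h2 := Real.log_le_log hNpos hnn
      rw [Real.log_mul hn0.ne' hn0.ne'] at h2
      linarith
    have hlogn0 : 0 < Real.log n := by linarith
    have h2 : Real.log n ≤ L := Real.log_le_log hn0 (by exact_mod_cast hn2)
    have h3 : Real.log (Real.log n) ≤ Real.log L := Real.log_le_log hlogn0 h2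
    have h4 : Real.log L ≤ Real.log 2 + Real.log (Real.log n) := by
      rw [← Real.log_mul (by norm_num) hlogn0.ne']
      exact Real.log_le_log hL0 h1
    have h5 : 0 < Real.log (Real.log n) := by linarith
    have h6 : Real.log (Real.log (Real.log n)) ≤ Real.log (Real.log L) := Real.log_le_log h5 h3
    have h7 : Real.log (Real.log L) ≤ Real.log 2 + Real.log (Real.log (Real.log n)) := by
      rw [← Real.log_mul (by norm_num) h5.ne']
      exact Real.log_le_log (by linarith) (by linarith)
    constructor <;> rw [abs_le] <;> constructor <;> linarith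
  -- the final step
  have hfin : ∀ (y r : ℕ), 2 ≤ y → Real.exp (C * y) ≤ N → 2 * (4 : ℝ) ^ y ≤ (N : ℝ) ^ δ' →
      (∀ n : ℕ, Nat.sqrt N < n → n ≤ N → y < n → n ≡ r [MOD primorial y] →
        |dv y N n| ≤ 2 * C → |totalSum false n - gm * Real.log (Real.log n) -
          θ * Real.log (Real.log (Real.log n))| ≤ 2 * C + K + 2 * C1 + |M0| + 5) →
      (N : ℝ) ^ (1 - δ) ≤ ((((Ioc (Nat.sqrt N) N).filter (fun n =>
        |totalSum false n - gm * Real.log (Real.log n) -
          θ * Real.log (Real.log (Real.log n))| ≤ 2 * C + K + 2 * C1 + |M0| + 5)).card : ℕ) : ℝ) := by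
    intro y r hy hyN hy4 hgood
    have h1 := good_count C hC h y N r hy hyN
    have h2 : (N : ℝ) ^ (1 - δ) ≤ (N : ℝ) / (2 * 4 ^ y) := by
      have h3 : (N : ℝ) ^ (1 - δ) ≤ (N : ℝ) ^ (1 - δ') :=
        Real.rpow_le_rpow_of_exponent_le hN1 (by linarith [min_le_left δ 1])
      refine h3.trans ?_
      rw [le_div_iff₀ (by positivity)]
      calc (N : ℝ) ^ (1 - δ') * (2 * 4 ^ y) ≤ (N : ℝ) ^ (1 - δ') * (N : ℝ) ^ δ' :=
            mul_le_mul_of_nonneg_left hy4 (Real.rpow_nonneg hNpos.le _)
        _ = N := by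
            rw [← Real.rpow_add hNpos]
            simp
    refine h2.trans (h1.trans ?_)
    have h4 : (Icc 1 N).filter (fun n => Nat.sqrt N < n ∧ y < n ∧
        n ≡ r [MOD primorial y] ∧ |dv y N n| ≤ 2 * C) ⊆ (Ioc (Nat.sqrt N) N).filter (fun n =>
        |totalSum false n - gm * Real.log (Real.log n) -
          θ * Real.log (Real.log (Real.log n))| ≤ 2 * C + K + 2 * C1 + |M0| + 5) := by
      intro n hn
      rw [mem_filter, mem_Icc] at hn
      rw [mem_filter, mem_Ioc]
      exact ⟨⟨hn.2.1, hn.1.2⟩, hgood n hn.2.1 hn.1.2 hn.2.2.1 hn.2.2.2.1 hn.2.2.2.2⟩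
    exact_mod_cast card_le_card h4
  have hθabs : |θ| ≤ 1 := by rw [abs_le]; constructor <;> linarith
  rcases le_total θ 0 with hθ | hθ
  · -- the class of `1`
    obtain ⟨y, hy, hyN, hy4, hyt⟩ := hN (-θ / gm) (by apply div_nonneg <;> linarith)
      (by rw [div_le_one hg0]; linarith)
    refine hfin y 1 hy hyN hy4 fun n hn1 hn2 hyn hr hd => ?_
    obtain ⟨c1, c2⟩ := hcmp n hn1 hn2
    have hly0 : 0 < Real.log y := Real.log_pos (by exact_mod_cast hy)
    have e1 : totalSum false n = dv y N n + 3 / 2 + gm * (Real.log L - Real.log (Real.log y)) := by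
      unfold dv
      rw [sum_one hy hyn hr, Real.log_div hL0.ne' hly0.ne']
      unfold gm
      ring
    have e2 : totalSum false n - gm * Real.log (Real.log n) -
        θ * Real.log (Real.log (Real.log n)) = dv y N n + 3 / 2 -
          gm * (Real.log (Real.log n) - Real.log L) -
          gm * (Real.log (Real.log y) - -θ / gm * Real.log (Real.log L)) -
          θ * (Real.log (Real.log (Real.log n)) - Real.log (Real.log L)) := by
      rw [e1]
      field_simp
      ring
    rw [e2]
    have b1 : |gm * (Real.log (Real.log n) - Real.log L)| ≤ 1 := by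
      rw [abs_mul, abs_of_pos hg0]
      nlinarith [abs_nonneg (Real.log (Real.log n) - Real.log L)]
    have b2 : |gm * (Real.log (Real.log y) - -θ / gm * Real.log (Real.log L))| ≤ K := by
      rw [abs_mul, abs_of_pos hg0]
      nlinarith [abs_nonneg (Real.log (Real.log y) - -θ / gm * Real.log (Real.log L))]
    have b3 : |θ * (Real.log (Real.log (Real.log n)) - Real.log (Real.log L))| ≤ 1 := by
      rw [abs_mul]
      nlinarith [abs_nonneg θ,
        abs_nonneg (Real.log (Real.log (Real.log n)) - Real.log (Real.log L))]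
    have b4 := abs_nonneg M0
    rw [abs_le] at b1 b2 b3 hd ⊢
    constructor <;> linarith [b1.1, b1.2, b2.1, b2.2, b3.1, b3.2, hd.1, hd.2]
  · -- the class of `0`
    obtain ⟨y, hy, hyN, hy4, hyt⟩ := hN (θ / (1 - gm)) (by apply div_nonneg <;> linarith)
      (by rw [div_le_one (by linarith)]; linarith)
    refine hfin y 0 hy hyN hy4 fun n hn1 hn2 hyn hr hd => ?_
    obtain ⟨c1, c2⟩ := hcmp n hn1 hn2
    have hly0 : 0 < Real.log y := Real.log_pos (by exact_mod_cast hy)
    have hly2 : Real.log 2 ≤ Real.log y := Real.log_le_log (by norm_num) (by exact_mod_cast hy)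
    have hmy := hM y hy
    have hmy2 : |∑ p ∈ Nat.primesLE y, (1 : ℝ) / p - Real.log (Real.log y) - M0| ≤ 2 * C1 := by
      refine hmy.trans ?_
      rw [div_le_iff₀ hly0]
      nlinarith
    have e1 : totalSum false n = dv y N n + (1 + ∑ p ∈ Nat.primesLE y, (1 : ℝ) / p) +
        gm * (Real.log L - Real.log (Real.log y)) := by
      unfold dv
      rw [sum_zero (by omega) hyn hr, Real.log_div hL0.ne' hly0.ne']
      unfold gm
      ring
    have hg1' : 0 < 1 - gm := by linarith
    have e2 : totalSum false n - gm * Real.log (Real.log n) -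
        θ * Real.log (Real.log (Real.log n)) = dv y N n + 1 + M0 +
          (∑ p ∈ Nat.primesLE y, (1 : ℝ) / p - Real.log (Real.log y) - M0) -
          gm * (Real.log (Real.log n) - Real.log L) +
          (1 - gm) * (Real.log (Real.log y) - θ / (1 - gm) * Real.log (Real.log L)) -
          θ * (Real.log (Real.log (Real.log n)) - Real.log (Real.log L)) := by
      rw [e1]
      field_simp
      ring
    rw [e2]
    have b1 : |gm * (Real.log (Real.log n) - Real.log L)| ≤ 1 := by
      rw [abs_mul, abs_of_pos hg0]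
      nlinarith [abs_nonneg (Real.log (Real.log n) - Real.log L)]
    have b2 : |(1 - gm) * (Real.log (Real.log y) - θ / (1 - gm) * Real.log (Real.log L))| ≤ K := by
      rw [abs_mul, abs_of_pos hg1']
      nlinarith [abs_nonneg (Real.log (Real.log y) - θ / (1 - gm) * Real.log (Real.log L))]
    have b3 : |θ * (Real.log (Real.log (Real.log n)) - Real.log (Real.log L))| ≤ 1 := by
      rw [abs_mul]
      nlinarith [abs_nonneg θ,
        abs_nonneg (Real.log (Real.log (Real.log n)) - Real.log (Real.log L))]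
    have b4 := neg_abs_le M0
    have b5 := le_abs_self M0
    rw [abs_le] at b1 b2 b3 hd hmy2 ⊢
    constructor <;> linarith [b1.1, b1.2, b2.1, b2.2, b3.1, b3.2, hd.1, hd.2, hmy2.1, hmy2.2]

theorem msq (C : ℝ) (hC : 8 ≤ C) (h : CV C) : ∃ C' : ℝ, 0 < C' ∧ ∀ N : ℕ, 3 ≤ N →
    ∑ n ∈ Icc 1 N, (totalSum false n - gm * Real.log (Real.log N)) ^ 2 ≤ C' * N := by
  classical
  have hg0 := gm_pos
  have hg1 := gm_lt
  have hl2 : (0.69 : ℝ) < Real.log 2 := by have := Real.log_two_gt_d9; linarith
  have hl2' : Real.log 2 < 0.7 := by have := Real.log_two_lt_d9; linarith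
  refine ⟨(1 + 2 * C) ^ 2 + 2 * C + 8, by positivity, fun N hN => ?_⟩
  have hN1 : (3 : ℝ) ≤ N := by exact_mod_cast hN
  have hNpos : (0 : ℝ) < N := by linarith
  rcases le_or_gt (Real.exp (C * 2)) N with hbig | hsmall
  · have hprim : primorial 2 = 2 := by decide
    have hterm : ∀ n : ℕ, (totalSum false n - gm * Real.log (Real.log N)) ^ 2 ≤
        2 * dv 2 N n ^ 2 + 8 := by
      intro n
      set S2 : ℝ := ∑ a ∈ (selected false n).filter (fun a => a ≤ 2), (1 : ℝ) / a with hS2
      have h0 : 0 ≤ S2 := sum_nonneg fun a _ => by positivity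
      have h1 : S2 ≤ 3 / 2 := by
        have hsub : (selected false n).filter (fun a => a ≤ 2) ⊆ {1, 2} := by
          intro a ha
          rw [mem_filter] at ha
          have := sel_pos ha.1
          rw [mem_insert, mem_singleton]
          omega
        calc S2 ≤ ∑ a ∈ ({1, 2} : Finset ℕ), (1 : ℝ) / a :=
              sum_le_sum_of_subset_of_nonneg hsub fun a _ _ => by positivity
          _ = 3 / 2 := by
              rw [sum_pair (by norm_num)]
              norm_num
      have hlN : 0 < Real.log N := Real.log_pos (by linarith)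
      have e1 : totalSum false n - gm * Real.log (Real.log N) =
          dv 2 N n + (S2 - gm * Real.log (Real.log 2)) := by
        unfold dv
        rw [Nat.cast_ofNat, Real.log_div hlN.ne' (by linarith)]
        unfold gm
        ring
      have h2 : -(1 / 2) ≤ Real.log (Real.log 2) := by
        have h3 := Real.one_sub_inv_le_log_of_pos (show 0 < Real.log 2 by linarith)
        have h4 : (Real.log 2)⁻¹ ≤ 3 / 2 := by
          rw [inv_le_comm₀ (by linarith) (by norm_num)]
          linarith
        linarith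
      have h3 : Real.log (Real.log 2) ≤ 0 := Real.log_nonpos (by linarith) (by linarith)
      have h4 : |S2 - gm * Real.log (Real.log 2)| ≤ 2 := by
        rw [abs_le]
        constructor <;> nlinarith
      have h5 : (S2 - gm * Real.log (Real.log 2)) ^ 2 ≤ 4 := by
        rw [← sq_abs]
        calc |S2 - gm * Real.log (Real.log 2)| ^ 2 ≤ 2 ^ 2 :=
              pow_le_pow_left₀ (abs_nonneg _) h4 2
          _ = 4 := by norm_num
      rw [e1]
      nlinarith [sq_nonneg (dv 2 N n - (S2 - gm * Real.log (Real.log 2)))]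
    have hcl := fun r => h 2 N r le_rfl (by simpa using hbig)
    have hsplit : ∑ n ∈ Icc 1 N, dv 2 N n ^ 2 =
        ∑ n ∈ (Icc 1 N).filter (fun n => n ≡ 0 [MOD primorial 2]), dv 2 N n ^ 2 +
          ∑ n ∈ (Icc 1 N).filter (fun n => n ≡ 1 [MOD primorial 2]), dv 2 N n ^ 2 := by
      rw [hprim, ← sum_filter_add_sum_filter_not (Icc 1 N) (fun n => n ≡ 0 [MOD 2])]
      congr 1
      refine sum_congr ?_ fun _ _ => rfl
      ext n
      simp only [mem_filter, Nat.ModEq]
      refine and_congr_right fun _ => ?_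
      omega
    have h2 : ∑ n ∈ Icc 1 N, (totalSum false n - gm * Real.log (Real.log N)) ^ 2 ≤
        2 * ∑ n ∈ Icc 1 N, dv 2 N n ^ 2 + 8 * N := by
      calc _ ≤ ∑ n ∈ Icc 1 N, (2 * dv 2 N n ^ 2 + 8) := sum_le_sum fun n _ => hterm n
        _ = _ := by
            rw [sum_add_distrib, ← mul_sum, sum_const, Nat.card_Icc, nsmul_eq_mul]
            push_cast
            ring
    have h3 := hcl 0
    have h4 := hcl 1
    rw [hsplit] at h2
    have h5 : C * ((N : ℝ) / primorial 2) = C * N / 2 := by
      rw [hprim]; push_cast; ring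
    rw [h5] at h3 h4
    have h6 : 0 ≤ (1 + 2 * C) ^ 2 * N := by positivity
    nlinarith
  · have hlogN : Real.log N ≤ 2 * C := by
      have := Real.log_le_log hNpos hsmall.le
      rw [Real.log_exp] at this
      linarith
    have hlog1 : 1 ≤ Real.log N := by
      rw [Real.le_log_iff_exp_le hNpos]
      have := Real.exp_one_lt_d9
      linarith
    have hterm : ∀ n ∈ Icc 1 N, (totalSum false n - gm * Real.log (Real.log N)) ^ 2 ≤
        (1 + 2 * C) ^ 2 := by
      intro n hn
      rw [mem_Icc] at hn
      have h1 := Pool.Agent.GSU.LSMA.total_le n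
      have h2 : Real.log n ≤ Real.log N :=
        Real.log_le_log (by exact_mod_cast hn.1) (by exact_mod_cast hn.2)
      have h3 : 0 ≤ totalSum false n := by
        unfold totalSum
        exact sum_nonneg fun a _ => by positivity
      have h4 : 0 ≤ Real.log (Real.log N) := Real.log_nonneg hlog1
      have h5 : Real.log (Real.log N) ≤ Real.log N :=
        (Real.log_le_sub_one_of_pos (by linarith)).trans (by linarith)
      have h6 : 0 ≤ gm * Real.log (Real.log N) := by positivity
      have h7 : gm * Real.log (Real.log N) ≤ 2 * C := by nlinarith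
      rw [← sq_abs]
      refine pow_le_pow_left₀ (abs_nonneg _) ?_ 2
      rw [abs_le]
      constructor <;> linarith
    calc _ ≤ ∑ n ∈ Icc 1 N, (1 + 2 * C) ^ 2 := sum_le_sum hterm
      _ = (1 + 2 * C) ^ 2 * N := by
          rw [sum_const, Nat.card_Icc, nsmul_eq_mul]
          push_cast
          ring
      _ ≤ _ := by nlinarith

end Pool.Agent.GSO
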